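import Pool.Agent.helper4.EC.Spec

set_option autoImplicit false

namespace Pool.Agent.helper4.EC

open Finset

universe u

theorem ST (h1 : SA_stmt.{u}) (h2 : S3_stmt.{u}) : ST_stmt.{u} := by
  intro V _ G hG hI hD hS k W hW
  obtain ⟨x0, y0, -, -⟩ := (h1 V G (W 0) (W (0 + 1))).1 (hW.1 0 (by omega))
  have e1 : ∀ i : ℕ, ∃ x y : V, i ≤ k → Sl G (W i).1 x y ∧ (W (i + 1)).1 = insert y ((W i).1.erase x) := by
    intro i
    by_cases h : i ≤ k
    · obtain ⟨x, y, hxy⟩ := (h1 V G (W i) (W (i + 1))).1 (hW.1 i (by omega))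
      exact ⟨x, y, fun _ => hxy⟩
    · exact ⟨x0, x0, fun h' => absurd h' h⟩
  choose p q hpq using e1
  have e2 : ∀ i : ℕ, ∃ v : V, i < k → G.Adj (q i) v ∧ G.Adj v (p (i + 1)) ∧ p i ≠ v ∧ ¬ G.Adj (p i) v ∧
      v ≠ q (i + 1) ∧ ¬ G.Adj v (q (i + 1)) ∧ q i ≠ p (i + 1) ∧ ¬ G.Adj (q i) (p (i + 1)) := by
    intro i
    by_cases h : i < k
    · have a1 := hpq i (by omega)
      have a2 := hpq (i + 1) (by omega)
      have a3 := hW.2 i (by omega)
      obtain ⟨v, hv⟩ := h2 V G hG hI hD hS (W i).1 (W (i + 1)).1 (W (i + 2)).1 (p i) (q i) (p (i + 1)) (q (i + 1))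
        (W i).2 (W (i + 1)).2 (W (i + 2)).2 a1.1 a1.2 a2.1 a2.2 (fun h' => a3.1 (Subtype.ext h'))
        (fun _ _ h' => a3.2 h')
      exact ⟨v, fun _ => hv⟩
    · exact ⟨x0, fun h' => absurd h' h⟩
  choose v hv using e2
  refine ⟨fun j => if j % 3 = 0 then p (j / 3) else if j % 3 = 1 then q (j / 3) else v (j / 3), ?_, ?_⟩
  · intro j hj
    obtain ⟨i, rfl | rfl | rfl⟩ : ∃ i, j = 3 * i ∨ j = 3 * i + 1 ∨ j = 3 * i + 2 := ⟨j / 3, by omega⟩
    · have b1 : 3 * i % 3 = 0 := by omega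
      have b2 : (3 * i + 1) % 3 = 1 := by omega
      have b3 : 3 * i / 3 = i := by omega
      have b4 : (3 * i + 1) / 3 = i := by omega
      simp only [b1, b2, b3, b4]
      exact (hpq i (by omega)).1.2.2.1
    · have b1 : (3 * i + 1) % 3 = 1 := by omega
      have b2 : (3 * i + 1 + 1) % 3 = 2 := by omega
      have b3 : (3 * i + 1) / 3 = i := by omega
      have b4 : (3 * i + 1 + 1) / 3 = i := by omega
      simp only [b1, b2, b3, b4]
      exact (hv i (by omega)).1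
    · have b1 : (3 * i + 2) % 3 = 2 := by omega
      have b2 : (3 * i + 2 + 1) % 3 = 0 := by omega
      have b3 : (3 * i + 2) / 3 = i := by omega
      have b4 : (3 * i + 2 + 1) / 3 = i + 1 := by omega
      simp only [b1, b2, b3, b4]
      exact (hv i (by omega)).2.1
  · intro j hj
    obtain ⟨i, rfl | rfl | rfl⟩ : ∃ i, j = 3 * i ∨ j = 3 * i + 1 ∨ j = 3 * i + 2 := ⟨j / 3, by omega⟩
    · have b1 : 3 * i % 3 = 0 := by omega
      have b2 : (3 * i + 2) % 3 = 2 := by omega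
      have b3 : 3 * i / 3 = i := by omega
      have b4 : (3 * i + 2) / 3 = i := by omega
      simp only [b1, b2, b3, b4]
      have h := hv i (by omega)
      exact ⟨h.2.2.1, h.2.2.2.1⟩
    · have b1 : (3 * i + 1) % 3 = 1 := by omega
      have b2 : (3 * i + 1 + 2) % 3 = 0 := by omega
      have b3 : (3 * i + 1) / 3 = i := by omega
      have b4 : (3 * i + 1 + 2) / 3 = i + 1 := by omega
      simp only [b1, b2, b3, b4]
      have h := hv i (by omega)
      exact ⟨h.2.2.2.2.2.2.1, h.2.2.2.2.2.2.2⟩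
    · have b1 : (3 * i + 2) % 3 = 2 := by omega
      have b2 : (3 * i + 2 + 2) % 3 = 1 := by omega
      have b3 : (3 * i + 2) / 3 = i := by omega
      have b4 : (3 * i + 2 + 2) / 3 = i + 1 := by omega
      simp only [b1, b2, b3, b4]
      have h := hv i (by omega)
      exact ⟨h.2.2.2.2.1, h.2.2.2.2.2.1⟩

end Pool.Agent.helper4.EC
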